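import Mathlib
import Pool.Agent.H.MP_5b0e2c_al.E

namespace Pool.Agent.H.MP_f234cd_al

open Function Pool.Agent.H.MP_5b0e2c_al Equiv

variable {p : ℕ} [hp : Fact p.Prime]

def AG (p : ℕ) [Fact p.Prime] : Subgroup (Perm (ZMod p)) where
  carrier := {σ | ∃ a b : ZMod p, a ≠ 0 ∧ ∀ x, σ x = a * x + b}
  one_mem' := ⟨1, 0, one_ne_zero, by simp⟩
  mul_mem' := by
    rintro σ τ ⟨a, b, h1, h2⟩ ⟨c, d, h3, h4⟩
    exact ⟨a * c, a * d + b, mul_ne_zero h1 h3, fun x => by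
      rw [Perm.mul_apply, h2, h4]; ring⟩
  inv_mem' := by
    rintro σ ⟨a, b, h1, h2⟩
    exact ⟨a⁻¹, -(a⁻¹ * b), inv_ne_zero h1, fun x => by
      rw [Perm.inv_eq_iff_eq, h2]; field_simp; ring⟩

theorem ag_fix {σ : Perm (ZMod p)} (h : σ ∈ AG p) (h1 : σ ≠ 1) {x y} (hx : σ x = x)
    (hy : σ y = y) : x = y := by
  obtain ⟨a, b, -, h⟩ := h
  by_contra hne
  rw [h] at hx hy
  have : (a - 1) * (x - y) = 0 := by linear_combination hx - hy
  have ha : a = 1 := sub_eq_zero.1 ((mul_eq_zero.1 this).resolve_right (sub_ne_zero.2 hne))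
  have hb : b = 0 := by rw [ha] at hx; linear_combination hx
  exact h1 (Equiv.ext fun z => by simp [h, ha, hb])

theorem ag_comm {σ τ : Perm (ZMod p)} (h : σ ∈ AG p) (h' : τ ∈ AG p) :
    (σ * τ * σ⁻¹ * τ⁻¹) ^ p = 1 := by
  obtain ⟨a, b, h1, h2⟩ := h
  obtain ⟨c, d, h3, h4⟩ := h'
  have : ∀ x, (σ * τ * σ⁻¹ * τ⁻¹) x = x + (a * d + b - c * b - d) := fun x => by
    obtain ⟨y, rfl⟩ := (τ * σ).surjective x
    rw [← Perm.mul_apply, show σ * τ * σ⁻¹ * τ⁻¹ * (τ * σ) = σ * τ by group]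
    simp only [Perm.mul_apply, h2, h4]; ring
  have k : ∀ (n : ℕ) x, ((σ * τ * σ⁻¹ * τ⁻¹) ^ n) x = x + n * (a * d + b - c * b - d) := by
    intro n
    induction n with
    | zero => simp
    | succ n ih => intro x; rw [pow_succ', Perm.mul_apply, this, ih]; push_cast; ring
  exact Equiv.ext fun x => by simp [k]

theorem cyc_trans {σ : Perm (ZMod p)} (h1 : σ ≠ 1) (h : σ ^ p = 1) (x y) :
    σ x ≠ x ∧ ∃ n : ℕ, (σ ^ n) x = y := by
  have ho : orderOf σ = p := orderOf_eq_prime h h1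
  have hc : σ.IsCycle := Perm.isCycle_of_prime_order' (by rw [ho]; exact hp.out) (by
    rw [ho, ZMod.card]; have := hp.out.pos; omega)
  have hs : σ.support = Finset.univ := Finset.eq_univ_of_card _ (by
    rw [← hc.orderOf, ho, ZMod.card])
  have : ∀ z, σ z ≠ z := fun z => Perm.mem_support.1 (hs ▸ Finset.mem_univ z)
  exact ⟨this x, hc.exists_pow_eq (this x) (this y)⟩

section cl
variable {K : Type} [Group K] [Finite K]

def One (γ : K →* Perm (ZMod p)) : Prop := ∀ g, g ≠ 1 → ∀ x y, γ g x = x → γ g y = y → x = y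

omit [Finite K] in
theorem One.ne {γ : K →* Perm (ZMod p)} (h : One γ) {g} (h1 : g ≠ 1) : γ g ≠ 1 := fun e =>
  zero_ne_one (h g h1 0 1 (by simp [e]) (by simp [e]))

theorem com_fix {γ : K →* Perm (ZMod p)} (h : One γ) (H : Subgroup K)
    (h1 : ∀ g ∈ H, g ^ p = 1 → g = 1) (h2 : ∀ g ∈ H, ∀ g' ∈ H, g * g' = g' * g) :
    ∃ y, ∀ g ∈ H, γ g y = y := by
  by_cases hn : ∀ g ∈ H, g = 1
  · exact ⟨0, fun g hg => by simp [hn g hg]⟩
  · push Not at hn
    obtain ⟨g, hg, hne⟩ := hn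
    obtain ⟨n, l, hl, k1, k2⟩ := ex_prime_pow hne (isOfFinOrder_of_finite g)
    have := Fact.mk hl
    obtain ⟨y, hy⟩ := Perm.exists_fixed_point_of_prime (p := l) (n := 1) (σ := γ (g ^ n)) (by
      rw [ZMod.card, Nat.prime_dvd_prime_iff_eq hl hp.out]
      rintro rfl
      exact k1 (h1 _ (H.pow_mem hg n) k2)) (by rw [pow_one, ← map_pow, k2, map_one])
    refine ⟨y, fun u hu => h _ k1 _ _ ?_ hy⟩
    rw [← Perm.mul_apply, ← map_mul, h2 _ (H.pow_mem hg n) _ hu, map_mul, Perm.mul_apply, hy]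

omit [Finite K] hp in
theorem str {γ : K →* Perm (ZMod p)} (h : One γ) {x₀} (h0 : ∀ g, γ g x₀ = x₀) :
    ∃ (T : Set (ZMod p)) (e : Option (T × K) ≃ ZMod p), e none = x₀ ∧
      ∀ t g, e (some (t, g)) = γ g t := by
  let s : Setoid (ZMod p) := ⟨fun x y => ∃ g, γ g y = x, fun x => ⟨1, by simp⟩, by
    rintro _ y ⟨g, rfl⟩; exact ⟨g⁻¹, by simp⟩, by
    rintro _ _ z ⟨g, rfl⟩ ⟨g', rfl⟩; exact ⟨g * g', by simp⟩⟩
  let T : Set (ZMod p) := {x | x ≠ x₀ ∧ (Quotient.mk s x).out = x}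
  have n0 : ∀ g x, γ g x = x₀ → x = x₀ := fun g x e => (γ g).injective (e.trans (h0 g).symm)
  refine ⟨T, ofBijective (fun o => o.elim x₀ (fun q => γ q.2 q.1)) ⟨?_, fun x => ?_⟩, rfl,
    fun _ _ => rfl⟩
  · rintro (_ | ⟨t, g⟩) (_ | ⟨t', g'⟩) e
    · rfl
    · exact absurd (n0 _ _ e.symm) t'.2.1
    · exact absurd (n0 _ _ e) t.2.1
    · have e : γ g t = γ g' t' := e
      have e2 : γ (g⁻¹ * g') t' = t := by simp [← e]
      obtain rfl : t = t' := Subtype.ext (by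
        rw [← t.2.2, ← t'.2.2, Quotient.sound (s := s) ⟨_, e2⟩])
      have : g⁻¹ * g' = 1 := by_contra fun hn => t.2.1 (h _ hn _ _ e2 (h0 _))
      rw [inv_mul_eq_one.1 this]
  · by_cases hx : x = x₀
    · exact ⟨none, hx.symm⟩
    · obtain ⟨g, hg⟩ : s.r x (Quotient.mk s x).out := Quotient.exact (Quotient.out_eq _).symm
      exact ⟨some (⟨(Quotient.mk s x).out, fun e => hx (by rw [← hg, e, h0]), by simp⟩, g), hg⟩

theorem cl {α β : K →* Perm (ZMod p)} (hα : One α) (hβ : One β) (hm : ∀ g, β g ∈ AG p) :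
    ∃ π : Perm (ZMod p), ∀ g i, π (α g i) = β g (π i) := by
  have ab : ∀ H : Subgroup K, (∀ g ∈ H, g ^ p = 1 → g = 1) →
      ∀ g ∈ H, ∀ g' ∈ H, g * g' = g' * g := fun H h g hg g' hg' => by
    have := h (g * g' * g⁻¹ * g'⁻¹) (H.mul_mem (H.mul_mem (H.mul_mem hg hg') (H.inv_mem hg))
      (H.inv_mem hg')) (by_contra fun hn => hβ.ne hn (by
        simpa using ag_comm (hm g) (hm g')))
    rwa [mul_inv_eq_one, mul_inv_eq_iff_eq_mul] at this
  by_cases hu : ∀ g : K, g ^ p = 1 → g = 1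
  · obtain ⟨x₀, hx⟩ := com_fix hα ⊤ (fun g _ => hu g) (ab ⊤ (fun g _ => hu g))
    obtain ⟨y₀, hy⟩ := com_fix hβ ⊤ (fun g _ => hu g) (ab ⊤ (fun g _ => hu g))
    obtain ⟨T, e, e1, e2⟩ := str hα (fun g => hx g trivial)
    obtain ⟨T', e', e3, e4⟩ := str hβ (fun g => hy g trivial)
    have : Nat.card T = Nat.card T' := by
      have := (Nat.card_congr e).trans (Nat.card_congr e').symm
      simpa [Finite.card_option, Nat.card_pos.ne'] using this
    obtain ⟨ε⟩ := Finite.card_eq.1 this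
    refine ⟨(e.symm.trans (optionCongr (ε.prodCongr (Equiv.refl K)))).trans e', fun g i => ?_⟩
    obtain ⟨o, rfl⟩ := e.surjective i
    rcases o with _ | ⟨t, k⟩
    · rw [e1, hx g trivial, ← e1]; simp [e3, hy]
    · rw [e2, ← Perm.mul_apply (α g), ← map_mul, ← e2, ← e2]; simp [e4]
  · push Not at hu
    obtain ⟨u, h1, h2⟩ := hu
    have tr : ∀ {γ : K →* Perm (ZMod p)}, One γ → ∀ x y, ∃ g, γ g x = y := fun {γ} h x y => by
      obtain ⟨-, n, hn⟩ := cyc_trans (h.ne h2) (by rw [← map_pow, h1, map_one]) x y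
      exact ⟨u ^ n, by rwa [map_pow]⟩
    let H : Subgroup K := (MulAction.stabilizer (Perm (ZMod p)) (0 : ZMod p)).comap α
    have hH : ∀ g ∈ H, g ^ p = 1 → g = 1 := fun g hg e => by_contra fun hn =>
      (cyc_trans (hα.ne hn) (by rw [← map_pow, e, map_one]) 0 0).1 hg
    obtain ⟨y, hy⟩ := com_fix hβ H hH (ab H hH)
    choose s hs using tr hα 0
    have key : ∀ g, β (s (α g 0)) y = β g y := fun g => by
      have := hy (g⁻¹ * s (α g 0)) (show α _ 0 = 0 by simp [hs])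
      rw [map_mul, map_inv, Perm.mul_apply, Perm.inv_eq_iff_eq] at this
      exact this
    refine ⟨ofBijective (fun x => β (s x) y) (Finite.surjective_iff_bijective.1 fun z => ?_),
      fun g i => ?_⟩
    · obtain ⟨g, rfl⟩ := tr hβ y z
      exact ⟨_, key g⟩
    · show β (s _) y = β g (β (s i) y)
      rw [← Perm.mul_apply (β g), ← map_mul, ← key (g * s i), map_mul, Perm.mul_apply, hs]

end cl

def QA (S : St Unit) (c : ZMod p → S.X) : Prop := FF (ZMod p) S.G S.X ∧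
  TT (Fintype.card (ZMod p)) S.G S.X ∧ Infinite S.X ∧ Injective c ∧ ∃ e : AG p →* S.G,
    (∀ θ i, e θ • c i = c (θ.1 i)) ∧ ∃ ρ : S.G →* AG p, (∀ θ, ρ (e θ) = θ) ∧
      ∀ g, IsOfFinOrder g → ρ g = 1 → g = 1

theorem joinA (S : St Unit) (c : ZMod p → S.X) (hS : QA S c) (a : ZMod p → S.X)
    (ha : Injective a) : ∃ S', ∃ f : Hom S S', QA S' (f.x ∘ c) ∧
      ∃ t : S'.G, ∀ i, ∃ j, t • f.x (a i) = f.x (c j) := by
  by_cases H : ∃ g : S.G, ∀ i, ∃ j, g • a i = c j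
  · exact ⟨S, Hom.id S, hS, H⟩
  obtain ⟨hF, hT, hI, hc, e, he, ρ, hρ, hk⟩ := hS
  let K : Subgroup S.G :=
    { carrier := {g | ∃ σ : Perm (ZMod p), ∀ i, g • a i = a (σ i)}
      one_mem' := ⟨1, fun i => one_smul _ _⟩
      mul_mem' := fun {g h} ⟨σ, hg⟩ ⟨τ, hh⟩ => ⟨σ * τ, fun i => by rw [mul_smul, hh, hg]; rfl⟩
      inv_mem' := fun {g} ⟨σ, hg⟩ => ⟨σ⁻¹, fun i => by rw [inv_smul_eq_iff, hg]; simp⟩ }
  choose α hα using fun g : K => g.2
  let α' : K →* Perm (ZMod p) := MonoidHom.mk' α (fun g h => Equiv.ext fun i => ha (by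
    rw [← hα, Subgroup.coe_mul, mul_smul, hα, hα]; rfl))
  let β : K →* Perm (ZMod p) := (AG p).subtype.comp (ρ.comp K.subtype)
  have fo : ∀ g : K, IsOfFinOrder (g : S.G) := fun g => fin_ord hF ha (hα g)
  have bi : ∀ g, β g = 1 → g = 1 := fun g h => Subtype.ext (hk _ (fo g) (Subtype.ext h))
  have : Finite K := Finite.of_injective β ((injective_iff_map_eq_one β).2 bi)
  obtain ⟨π, hπ⟩ := cl (α := α') (β := β) (fun g h1 x y hx hy => ha
    ((hT g (fun e => h1 (Subtype.ext e)) (fo g) (a y) ((hα g y).trans (congrArg a hy))).1 _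
      ((hα g x).trans (congrArg a hx))))
    (fun g h1 x y => ag_fix (ρ g).2 (fun e => h1 (bi g e))) (fun g => (ρ g).2)
  have ha' : Injective (a ∘ π.symm) := ha.comp π.symm.injective
  have key : ∀ (g : S.G) (σ : ZMod p → ZMod p), (∀ i, g • (a ∘ π.symm) i = (a ∘ π.symm) (σ i)) →
      ∀ i, σ i = (ρ g).1 i := fun g σ h i => by
    have hg : g ∈ K := ex_perm ha (fun j => ⟨_, by simpa using h (π j)⟩)
    have h1 := hπ ⟨g, hg⟩ (π.symm i)
    have h2 := ha ((h i).symm.trans (hα ⟨g, hg⟩ (π.symm i)))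
    rw [symm_apply_eq] at h2
    rw [apply_symm_apply] at h1
    exact h2.trans h1
  obtain ⟨D, -, hDa, rfl⟩ := ex_HD hF (W := fun x m y => m = 0 ∧ x = y)
    ⟨fun h => h.1.ge, fun x => ⟨rfl, rfl⟩, fun h => ⟨h.1, h.2.symm⟩,
      fun h h' => ⟨by rw [h.1, h'.1, add_zero], h.2.trans h'.2⟩, fun h => h.2,
      fun g _ _ _ h => ⟨h.1, by rw [h.2]⟩⟩ ha' hc (fun i j m => by rw [ha'.eq_iff, hc.eq_iff])
    (fun ⟨g, hg⟩ => H ⟨g, fun i => by simpa using hg (π i)⟩)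
    (fun g σ h => ⟨e (ρ g), fun i => by rw [he, key g σ h]⟩)
  obtain ⟨ρ', hρ'⟩ := D.ext_hom ρ (fun g g' σ h1 h2 => by
    have : g'⁻¹ * e (ρ g) = 1 := hF _ _ hc (fun i => by
      rw [mul_smul, inv_smul_eq_iff, he, h2, key g σ (hDa ▸ h1)])
    rw [inv_mul_eq_one.1 this, hρ])
  have := D.cG
  have := D.cX
  let S' : St Unit := { G := D.G1, X := D.X1, d := fun _ _ => (), R := fun z =>
    ∃ w, D.j ∘ w = z ∧ S.R w }
  let f : Hom S S' := ⟨HNNExtension.of, ⟨D.j, D.j_inj⟩, fun g x => (D.of_j g x).symm,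
    fun _ _ => rfl, fun z => ⟨fun ⟨w, e, h⟩ => D.j_inj.comp_left e ▸ h, fun h => ⟨z, rfl, h⟩⟩⟩
  refine ⟨S', f, ⟨D.FF1 hF hT, D.TT1 hF hT, Infinite.of_injective _ D.j_inj, D.j_inj.comp hc,
    f.g.comp e, fun θ i => (f.eqv _ _).symm.trans (congrArg f.x (he θ i)), ρ',
    fun θ => (hρ' _).trans (hρ θ), fun g hg h1 => ?_⟩, HNNExtension.t ^ ((1 : ℤˣ) : ℤ),
    fun i => ⟨π i, ?_⟩⟩
  · obtain ⟨γ, h, e1, e2, e3⟩ := D.tors g hg
    have := congrArg ρ' e1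
    rw [map_mul, map_mul, h1, hρ', map_inv, mul_one, mul_inv_cancel] at this
    simpa using (e3 1).2 (by rw [pow_one]; exact hk h e2 this.symm)
  · have := D.t_j 1 (π i)
    rw [D.e_one, hDa, comp_apply, symm_apply_apply] at this
    exact this

theorem ex_init : ∃ S : St Unit, ∃ c : ZMod p → S.X, QA S c := by
  have fx : ∀ {g : AG p}, g ≠ 1 → ∀ {x : ZMod p ⊕ (Σ _ : ℕ, AG p)}, g • x = x →
      ∃ i, x = .inl i ∧ g.1 i = i := by
    rintro g h1 (i | ⟨n, θ⟩) h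
    · exact ⟨i, rfl, Sum.inl_injective h⟩
    · simp [h1] at h
  have uq : ∀ {g : AG p}, g ≠ 1 → ∀ {x y : ZMod p ⊕ (Σ _ : ℕ, AG p)}, g • x = x → g • y = y →
      y = x := fun {g} h1 x y hx hy => by
    obtain ⟨i, rfl, hi⟩ := fx h1 hx
    obtain ⟨j, rfl, hj⟩ := fx h1 hy
    rw [ag_fix g.2 (fun e => h1 (Subtype.ext e)) hi hj]
  refine ⟨{ G := AG p, X := ZMod p ⊕ (Σ _ : ℕ, AG p), d := fun _ _ => (), R := fun _ => True },
    Sum.inl, fun g z hz h => by_contra fun h1 => one_ne_zero (hz (uq h1 (h 0) (h 1))),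
    fun g h1 _ x hx => ⟨fun y hy => uq h1 hx hy, fun l hl hd e => ?_⟩,
    Infinite.of_injective (fun n : ℕ => Sum.inr ⟨n, 1⟩) (fun n m e => by simpa using e),
    Sum.inl_injective, MonoidHom.id _, fun _ _ => rfl, MonoidHom.id _, fun _ => rfl,
    fun _ _ h => h⟩
  rw [ZMod.card, Nat.prime_dvd_prime_iff_eq hl hp.out] at hd
  subst hd
  obtain ⟨i, -, hi⟩ := fx h1 hx
  exact (cyc_trans (σ := g.1) (fun e => h1 (Subtype.ext e)) (congrArg Subtype.val e) i i).1 hi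

theorem main : ∃ (G X : Type) (_ : Group G) (_ : MulAction G X), Countable X ∧ Infinite X ∧
    FF (ZMod p) G X ∧ (∀ a b : ZMod p → X, Injective a → Injective b →
      ∃ g : G, ∀ i, ∃ j, g • a i = b j) ∧
    ∃ c : ZMod p → X, Injective c ∧ ∀ θ : AG p, ∃ g : G, ∀ i, g • c i = c (θ.1 i) := by
  obtain ⟨S₀, h₀⟩ := ex_init (p := p)
  obtain ⟨L, h1, h2⟩ := limit (C := Unit) (fun _ => ZMod p ⊕ ZMod p)
    (fun S => ∃ c : ZMod p → S.X, QA S c) (fun S _ x => Injective (x ∘ Sum.inl) →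
      Injective (x ∘ Sum.inr) → ∃ g : S.G, ∀ i, ∃ j, g • x (.inl i) = x (.inr j)) (by
      intro S S' f _ x h k1 k2
      obtain ⟨g, hg⟩ := h (Injective.of_comp (f := f.x) k1) (Injective.of_comp (f := f.x) k2)
      refine ⟨f.g g, fun i => ?_⟩
      obtain ⟨j, hj⟩ := hg i
      exact ⟨j, by simp only [comp_apply, ← f.eqv, hj]⟩) (by
      rintro S ⟨c, hS⟩ _ x
      by_cases H : Injective (x ∘ Sum.inl) ∧ Injective (x ∘ Sum.inr)
      · obtain ⟨S1, f1, p1, t, ht⟩ := joinA S c hS _ H.1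
        have hb := f1.x.injective.comp H.2
        obtain ⟨S2, f2, p2, t', ht'⟩ := joinA S1 _ p1 _ hb
        obtain ⟨σ, hσ⟩ := ex_perm (z' := f2.x ∘ f1.x ∘ c) (f2.x.injective.comp hb) ht'
        refine ⟨S2, f2.comp f1, ⟨_, p2⟩, fun _ _ => ⟨t'⁻¹ * f2.g t, fun i => ?_⟩⟩
        obtain ⟨j, hj⟩ := ht i
        refine ⟨σ.symm j, ?_⟩
        rw [mul_smul, inv_smul_eq_iff]
        refine ((f2.eqv _ _).symm.trans (congrArg f2.x hj)).trans ?_
        have := hσ (σ.symm j)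
        rw [apply_symm_apply] at this
        exact this.symm
      · exact ⟨S, Hom.id S, ⟨c, hS⟩, fun k1 k2 => absurd ⟨k1, k2⟩ H⟩) S₀ h₀
  obtain ⟨S, ⟨c, hS⟩, f, -⟩ := h1 1 Empty Empty.elim
  have := hS.2.2.1
  refine ⟨L.G, L.X, inferInstance, inferInstance, inferInstance,
    Infinite.of_injective _ f.x.injective, fun g z hz H => ?_,
    fun a b => h2 () (Sum.elim a b), f.x ∘ c, f.x.injective.comp hS.2.2.2.1, fun θ => ?_⟩
  · obtain ⟨S, ⟨_, hS⟩, f, g', z', rfl, rfl⟩ := h1 g _ z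
    rw [hS.1 g' z' (Injective.of_comp hz) (fun i => f.x.injective (by
      rw [f.eqv]; exact H i)), map_one]
  · obtain ⟨e, he, -⟩ := hS.2.2.2.2
    exact ⟨f.g (e θ), fun i => (f.eqv _ _).symm.trans (congrArg f.x (he θ i))⟩

theorem card_ag : (p - 1) * p ≤ Nat.card (AG p) := by
  let F : (ZMod p)ˣ × ZMod p → AG p := fun q =>
    ⟨(q.1.mulLeft).trans (Equiv.addRight q.2), q.1, q.2, q.1.ne_zero, fun _ => rfl⟩
  have : Injective F := by
    rintro ⟨a, b⟩ ⟨c, d⟩ e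
    have h0 : (a : ZMod p) * 0 + b = c * 0 + d := congrArg (fun θ : AG p => θ.1 0) e
    have h1 : (a : ZMod p) * 1 + b = c * 1 + d := congrArg (fun θ : AG p => θ.1 1) e
    exact Prod.ext (Units.ext (by linear_combination h1 - h0)) (by linear_combination h0)
  simpa [Nat.totient_prime hp.out] using Nat.card_le_card_of_injective F this

end Pool.Agent.H.MP_f234cd_al
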